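import Pool.Agent.H65.CRG.TL

/-!
# Zeros on the critical line, general degree: row BI, the main term as an integral
-/

set_option autoImplicit false

open Complex Set MeasureTheory Pool.Agent.H65.CRZ Pool.Agent.H65.CRG

namespace Pool.Agent.H99.CRG

theorem bi_int (w : ℂ) (hw : w ≠ 0) :
    (∫ v in (0 : ℝ)..1, cexp (-w * v)) = (1 - cexp (-w)) / w := by
  have h := integral_exp_mul_complex (a := 0) (b := 1) (c := -w) (neg_ne_zero.mpr hw)
  rw [h]
  simp only [ofReal_one, mul_one, ofReal_zero, mul_zero, Complex.exp_zero]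
  field_simp
  ring

theorem pf_BI : Pool.Agent.H65.CRG.T_BI := by
  intro a b x hx hw
  have hx' : (x : ℂ) ≠ 0 := by exact_mod_cast hx.ne'
  have hi := bi_int (a + b) hw
  have e1 : (∫ v in (0 : ℝ)..1, cexp (-(a + b) * v)) = (1 - cexp (-(a + b))) / (a + b) := hi
  rw [e1]
  unfold b0 Bm FF
  have e2 : -(a + b) * ((1 : ℝ) : ℂ) = -(a + b) := by simp
  rw [e2]
  generalize cexp (-(a + b)) = E
  field_simp
  ring

end Pool.Agent.H99.CRG
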